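import Pool.Agent.R283.QS.Asm
import Pool.Agent.R283.QS.AMP
import Pool.Agent.R283.QS.COA
import Pool.Agent.R283.QS.L2T
import Pool.Agent.R283.QS.NB
import Pool.Agent.R283.QS.ND
import Pool.Agent.R283.QS.PFO
import Pool.Agent.R283.QS.PKI
import Pool.Agent.R283.QS.PPI
import Pool.Agent.R283.QS.PSC
import Pool.Agent.R283.QS.PST
import Pool.Agent.R283.QS.PTO
import Pool.Agent.R283.QS.PTW
import Pool.Agent.R283.QS.QS
import Pool.Agent.R283.QS.SLF
import Pool.Agent.R283.QS.SLI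
import Pool.Agent.R283.QS.STATE
import Pool.Agent.R283.QS.TEN
import Pool.Agent.R283.QS.UNI
import Pool.Agent.R283.QS.WL
import Pool.Agent.R283.QS.WR

/-!
MP_43823f_an, Q1, full negative answer: there are a quantum semigroup with weak cancellation and an
idempotent state on it whose support projection is not compact.

Example: `k = ℚ_2`, `H = L²(k, dy/|y|)`, `A = K(H)`, `Δ(T) = U (T ⊗ 1) U*` with
`(U F)(y₁, y₂) = F (y₁ + y₂, y₁ / (y₁ + y₂))`; the unitaries `(P ξ)(y) = χ(y) ξ(a⁻¹ y)` satisfy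
`Δ(P) = P ⊗ P` and are weakly total; `ω(T) = ∑ wₙ ⟪eₙ, T eₙ⟫` with `eₙ` the normalised indicator of
the sphere `|y| = 2⁻ⁿ` and `wₙ = 2⁻ⁿ⁻¹`.
-/

set_option autoImplicit false

namespace Pool.Agent.Results.MP_43823f_an.NoncompactSupport

open Pool.Agent.R283.QS

theorem result :
    ∃ (H K : Type) (_ : NormedAddCommGroup H) (_ : InnerProductSpace ℂ H) (_ : CompleteSpace H)
      (_ : NormedAddCommGroup K) (_ : InnerProductSpace ℂ K) (_ : CompleteSpace K)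
      (t : H →ₗ[ℂ] H →ₗ[ℂ] K) (A : Submodule ℂ (H →L[ℂ] H))
      (Δ : (H →L[ℂ] H) → (K →L[ℂ] K)) (ω : (H →L[ℂ] H) →L[ℂ] ℂ),
      IsHT t ∧ IsCStar A ∧ Nondeg A ∧ QSemi t A Δ ∧ WeakCanc t A Δ ∧ IsState A ω ∧
        IsIdem t A Δ ω ∧ ¬ CompactSupport A ω := by
  have hA : SAMP := t_SAMP
  have hC : SCPT := t_SCPT
  have hS : SSLI := t_SSLI
  have hF : SSLF := t_SSLF
  have hB : SNB := t_SNB
  have hD : SND := t_SND
  have hT : STEN := t_STEN hA hC
  have hO : SCOA := t_SCOA hS hB hD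
  have hQ : SQS := t_SQS hC hT hO
  have hL : SWL := t_SWL hS hF hB hD hC
  have hR : SWR := t_SWR hS hF hB hD hC
  have hE : SSTATE := t_SSTATE hB hD hC
  have hSC : PSC := t_PSC
  have hKI : PKI := t_PKI hSC
  have hTH : PTH := t_PTH hSC hKI
  have hPI : PPI := t_PPI hKI t_UNI
  have hTW : PTW := t_PTW hKI hTH
  have hTO : PTO := t_PTO t_PFO hPI hB hKI
  have hST : PST := t_PST hSC hKI
  obtain ⟨H, K, i1, i2, i3, i4, i5, i6, t, Δ, ω, h1, h2, h3, h4, h5, h6⟩ :=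
    asm hA hQ hL hR hE hKI hTH t_L2T t_UNI hPI hTW hTO hST
  exact ⟨H, K, i1, i2, i3, i4, i5, i6, t, cpt H, Δ, ω, h1, (hC H).1, (hC H).2.1, h2, h3, h4, h5, h6⟩

end Pool.Agent.Results.MP_43823f_an.NoncompactSupport
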